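import Mathlib
import Pool.Agent.Helper346.Bra.SA

/-!
# Trace-vanishing subspaces of generic symbol algebras

Let `A = (α, β)_{p, F}` be the generic symbol algebra, with generators `x, y`, `y x = ω x y`.
A monomial `x^i y^j` with `p ∤ i` has reduced trace zero (conjugate by `y`).  For `t < r` let `V`
be the span of the `x^s y^j` with `t p < r s < (t + 1) p`.  A product of `r` monomials of `V` is a
multiple of `x^i y^j` with `t p < i < (t + 1) p`, so `Tr(v^r) = 0` on `V`.  By the pigeonhole
principle one of the `r` intervals contains at least `⌈(p - 1) / r⌉` integers; if `r ∤ p - 1` this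
number is at least `(p + 1) / r`, and `dim V ≥ p (p + 1) / r > (p² - 1) / r`.

We also prove that `A` is a central division algebra (leading monomials).
-/

set_option autoImplicit false

namespace Pool.Agent.Results.MP_064e41_al.TraceVanishing

open Pool.Agent.Helper346.Bra

section Sym

variable {F : Type} [Field F] {p : ℕ} {ω a b : F}

/-- the monomial `x^i y^j` -/
noncomputable def mon (F : Type) [Field F] (p : ℕ) (ω a b : F) (i j : ℕ) : Symb F p ω a b :=
  gx F p ω a b ^ i * gy F p ω a b ^ j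

lemma y_x : gy F p ω a b * gx F p ω a b = ω • (gx F p ω a b * gy F p ω a b) := by
  rw [gy_gx, Algebra.smul_def]

lemma y_xpow (i : ℕ) :
    gy F p ω a b * gx F p ω a b ^ i = ω ^ i • (gx F p ω a b ^ i * gy F p ω a b) := by
  induction i with
  | zero => simp
  | succ i ih =>
    rw [pow_succ, ← mul_assoc, ih, smul_mul_assoc, mul_assoc, y_x, mul_smul_comm, smul_smul,
      ← pow_succ, ← mul_assoc]

lemma ypow_xpow (i j : ℕ) :
    gy F p ω a b ^ j * gx F p ω a b ^ i
      = ω ^ (j * i) • (gx F p ω a b ^ i * gy F p ω a b ^ j) := by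
  induction j with
  | zero => simp
  | succ j ih =>
    rw [pow_succ', mul_assoc, ih, mul_smul_comm, ← mul_assoc, y_xpow, smul_mul_assoc, smul_smul,
      mul_assoc, ← pow_add]
    congr 2
    ring

lemma mon_mul (i j i' j' : ℕ) :
    mon F p ω a b i j * mon F p ω a b i' j' = ω ^ (j * i') • mon F p ω a b (i + i') (j + j') := by
  unfold mon
  rw [mul_assoc, ← mul_assoc (gy F p ω a b ^ j), ypow_xpow, smul_mul_assoc, mul_smul_comm,
    pow_add, pow_add]
  simp only [mul_assoc]

lemma mon_add_left (i j k : ℕ) :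
    mon F p ω a b (i + p * k) j = a ^ k • mon F p ω a b i j := by
  unfold mon
  rw [pow_add, pow_mul, gx_pow, ← map_pow, ← Algebra.commutes, mul_assoc, ← Algebra.smul_def]

lemma mon_add_right (i j k : ℕ) :
    mon F p ω a b i (j + p * k) = b ^ k • mon F p ω a b i j := by
  unfold mon
  rw [pow_add, pow_mul, gy_pow, ← map_pow, ← mul_assoc, ← Algebra.commutes, ← Algebra.smul_def]

lemma mon_mod (s t : ℕ) :
    mon F p ω a b s t = (a ^ (s / p) * b ^ (t / p)) • mon F p ω a b (s % p) (t % p) := by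
  conv_lhs => rw [← Nat.mod_add_div s p, ← Nat.mod_add_div t p]
  rw [mon_add_left, mon_add_right, smul_smul]

/-! ### The trace -/

/-- The reduced trace of an element `u` of a central simple `F`-algebra `A` of degree `n`, `n`
invertible in `F`: `1/n` times the trace of the left multiplication by `u`. -/
noncomputable def redTrace (F A : Type) [Field F] [Ring A] [Algebra F A] (n : ℕ) (u : A) : F :=
  (n : F)⁻¹ * LinearMap.trace F A (LinearMap.mulLeft F u)

/-- the trace of the left multiplication, as a linear map -/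
noncomputable def regTr (F A : Type) [Field F] [Ring A] [Algebra F A] : A →ₗ[F] F :=
  LinearMap.trace F A ∘ₗ (LinearMap.mul F A)

lemma regTr_apply (F A : Type) [Field F] [Ring A] [Algebra F A] (u : A) :
    regTr F A u = LinearMap.trace F A (LinearMap.mulLeft F u) := rfl

lemma regTr_comm (u v : Symb F p ω a b) :
    regTr F (Symb F p ω a b) (u * v) = regTr F (Symb F p ω a b) (v * u) := by
  rw [regTr_apply, regTr_apply, LinearMap.mulLeft_mul, LinearMap.mulLeft_mul]
  exact LinearMap.trace_mul_comm F (LinearMap.mulLeft F u) (LinearMap.mulLeft F v)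

lemma trace_mon (hp : 0 < p) (hω : IsPrimitiveRoot ω p) (hb : b ≠ 0) {i : ℕ} (hi : ¬ p ∣ i)
    (j : ℕ) : regTr F (Symb F p ω a b) (mon F p ω a b i j) = 0 := by
  have h1 : mon F p ω a b 0 1 * mon F p ω a b i (j + (p - 1))
      = (ω ^ i * b) • mon F p ω a b i j := by
    rw [mon_mul, one_mul, zero_add, show 1 + (j + (p - 1)) = j + p * 1 by omega, mon_add_right,
      smul_smul, pow_one]
  have h2 : mon F p ω a b i (j + (p - 1)) * mon F p ω a b 0 1 = b • mon F p ω a b i j := by
    rw [mon_mul, mul_zero, pow_zero, one_smul, add_zero,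
      show j + (p - 1) + 1 = j + p * 1 by omega, mon_add_right, pow_one]
  have h3 := regTr_comm (mon F p ω a b 0 1) (mon F p ω a b i (j + (p - 1)))
  rw [h1, h2, map_smul, map_smul, smul_eq_mul, smul_eq_mul] at h3
  have h4 : ω ^ i ≠ 1 := fun h => hi ((hω.pow_eq_one_iff_dvd i).1 h)
  have h5 : (ω ^ i - 1) * b * regTr F (Symb F p ω a b) (mon F p ω a b i j) = 0 := by
    linear_combination h3
  rcases mul_eq_zero.1 h5 with h6 | h6
  · rcases mul_eq_zero.1 h6 with h7 | h7
    · exact absurd (sub_eq_zero.1 h7) h4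
    · exact absurd h7 hb
  · exact h6

/-! ### The subspaces -/

/-- the span of the monomials `x^i y^j` with `n t p < r i < n (t+1) p` -/
noncomputable def U (F : Type) [Field F] (p : ℕ) (ω a b : F) (r t n : ℕ) :
    Submodule F (Symb F p ω a b) :=
  Submodule.span F {u | ∃ i j : ℕ, n * (t * p) < r * i ∧ r * i < n * ((t + 1) * p) ∧
    u = mon F p ω a b i j}

lemma mul_mem_U {r t n n' : ℕ} {u v : Symb F p ω a b} (hu : u ∈ U F p ω a b r t n)
    (hv : v ∈ U F p ω a b r t n') : u * v ∈ U F p ω a b r t (n + n') := by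
  have key : U F p ω a b r t n * U F p ω a b r t n' ≤ U F p ω a b r t (n + n') := by
    unfold U
    rw [Submodule.span_mul_span, Submodule.span_le]
    rintro _ ⟨_, ⟨i, j, h1, h2, rfl⟩, _, ⟨i', j', h1', h2', rfl⟩, rfl⟩
    simp only [SetLike.mem_coe]
    rw [mon_mul]
    apply Submodule.smul_mem
    apply Submodule.subset_span
    refine ⟨i + i', j + j', ?_, ?_, rfl⟩
    · rw [add_mul, mul_add]
      omega
    · rw [add_mul, mul_add]
      omega
  exact key (Submodule.mul_mem_mul hu hv)

lemma pow_mem_U {r t : ℕ} {u : Symb F p ω a b} (hu : u ∈ U F p ω a b r t 1) (n : ℕ) :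
    u ^ (n + 1) ∈ U F p ω a b r t (n + 1) := by
  induction n with
  | zero => simpa using hu
  | succ n ih =>
    rw [pow_succ]
    exact mul_mem_U ih hu

lemma trace_U (hp : 0 < p) (hω : IsPrimitiveRoot ω p) (hb : b ≠ 0) {r t : ℕ} (hr : 0 < r)
    {u : Symb F p ω a b} (hu : u ∈ U F p ω a b r t 1) :
    regTr F (Symb F p ω a b) (u ^ r) = 0 := by
  obtain ⟨n, rfl⟩ : ∃ n, r = n + 1 := ⟨r - 1, by omega⟩
  have h1 := pow_mem_U hu n
  have h2 : U F p ω a b (n + 1) t (n + 1) ≤
      LinearMap.ker (regTr F (Symb F p ω a b)) := by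
    unfold U
    rw [Submodule.span_le]
    rintro _ ⟨i, j, h3, h4, rfl⟩
    rw [SetLike.mem_coe, LinearMap.mem_ker]
    apply trace_mon hp hω hb
    rintro ⟨c, rfl⟩
    have h5 : t * p < p * c := lt_of_mul_lt_mul_left h3 (Nat.zero_le _)
    have h6 : p * c < (t + 1) * p := lt_of_mul_lt_mul_left h4 (Nat.zero_le _)
    rw [mul_comm p c] at h5 h6
    have h7 : t < c := lt_of_mul_lt_mul_right h5 (Nat.zero_le _)
    have h8 : c < t + 1 := lt_of_mul_lt_mul_right h6 (Nat.zero_le _)
    omega
  exact h2 h1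

/-! ### Dimension -/

/-- the exponents `s < p` with `t p < r s < (t + 1) p` -/
def expo (p r t : ℕ) : Finset ℕ :=
  (Finset.range p).filter fun s => t * p < r * s ∧ r * s < (t + 1) * p

lemma mem_expo {p r t s : ℕ} :
    s ∈ expo p r t ↔ s < p ∧ t * p < r * s ∧ r * s < (t + 1) * p := by
  rw [expo, Finset.mem_filter, Finset.mem_range]

lemma exists_large {p r : ℕ} (hp : p.Prime) (hr2 : 2 ≤ r) (hrp : r < p) (hd : ¬ r ∣ p - 1) :
    ∃ t, p + 1 ≤ r * (expo p r t).card := by
  have hp1 : 1 ≤ p := hp.one_lt.le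
  have hmaps : ∀ s ∈ Finset.Ico 1 p, r * s / p ∈ Finset.range r := by
    intro s hs
    rw [Finset.mem_Ico] at hs
    rw [Finset.mem_range, Nat.div_lt_iff_lt_mul (by omega)]
    exact Nat.mul_lt_mul_of_pos_left hs.2 (by omega)
  have hlt : (Finset.range r).card * ((p - 1) / r) < (Finset.Ico 1 p).card := by
    rw [Finset.card_range, Nat.card_Ico]
    have h1 := Nat.mul_div_le (p - 1) r
    rcases h1.lt_or_eq with h | h
    · exact h
    · exact absurd ⟨_, h.symm⟩ hd
  obtain ⟨t, -, ht⟩ := Finset.exists_lt_card_fiber_of_mul_lt_card_of_maps_to hmaps hlt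
  refine ⟨t, ?_⟩
  have hsub : ((Finset.Ico 1 p).filter fun s => r * s / p = t) ⊆ expo p r t := by
    intro s hs
    rw [Finset.mem_filter, Finset.mem_Ico] at hs
    obtain ⟨⟨hs1, hs2⟩, hs3⟩ := hs
    rw [mem_expo]
    have hne : ¬ p ∣ r * s := by
      intro h
      rcases hp.dvd_mul.1 h with h | h
      · exact absurd (Nat.le_of_dvd (by omega) h) (by omega)
      · exact absurd (Nat.le_of_dvd (by omega) h) (by omega)
    have h1 := Nat.div_add_mod (r * s) p
    have h2 := Nat.mod_lt (r * s) (by omega : 0 < p)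
    have h3 : 0 < r * s % p := Nat.pos_of_ne_zero fun h => hne (Nat.dvd_of_mod_eq_zero h)
    rw [hs3] at h1
    refine ⟨hs2, ?_, ?_⟩
    · rw [mul_comm t p]
      omega
    · rw [add_mul, mul_comm t p]
      omega
  have hcard := Finset.card_le_card hsub
  have h1 : (p - 1) / r + 1 ≤ (expo p r t).card := by omega
  have h2 : p - 1 < r * ((p - 1) / r + 1) := by
    have := Nat.lt_mul_div_succ (p - 1) (show 0 < r by omega)
    simpa using this
  have h3 : r * ((p - 1) / r + 1) ≤ r * (expo p r t).card := Nat.mul_le_mul_left _ h1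
  have h4 : r * (expo p r t).card ≠ p := by
    intro h
    have : r ∣ p := ⟨_, h.symm⟩
    rcases (Nat.dvd_prime hp).1 this with h | h <;> omega
  omega

lemma finrank_U (hp : 0 < p) (hω : IsPrimitiveRoot ω p) {r t : ℕ} :
    (expo p r t).card * p ≤ Module.finrank F (U F p ω a b r t 1) := by
  obtain ⟨e, he⟩ := symb_basis p hp ω a b hω.pow_eq_one
  have : Module.Finite F (Symb F p ω a b) := Module.Finite.of_basis e
  let v : (expo p r t) × Fin p → U F p ω a b r t 1 := fun q =>
    ⟨mon F p ω a b q.1 q.2, by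
      have hq := mem_expo.1 q.1.2
      exact Submodule.subset_span ⟨q.1, q.2, by simpa using hq.2.1, by simpa using hq.2.2, rfl⟩⟩
  have hv : LinearIndependent F v := by
    apply LinearIndependent.of_comp (U F p ω a b r t 1).subtype
    let g : (expo p r t) × Fin p → Fin p × Fin p := fun q =>
      (⟨q.1, (mem_expo.1 q.1.2).1⟩, q.2)
    have hg : Function.Injective g := by
      rintro ⟨⟨s, hs⟩, j⟩ ⟨⟨s', hs'⟩, j'⟩ h
      simp only [g, Prod.mk.injEq, Fin.mk.injEq] at h
      obtain ⟨h1, h2⟩ := h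
      subst h1
      subst h2
      rfl
    have h1 := e.linearIndependent.comp g hg
    have h2 : (U F p ω a b r t 1).subtype ∘ v = e ∘ g := by
      funext q
      simp only [Function.comp_apply, v, g, Submodule.subtype_apply, he, mon]
    rw [h2]
    exact h1
  have h2 := hv.fintype_card_le_finrank
  simpa using h2

end Sym

/-! ### The generic symbol algebra -/

section Generic

/-- the field `k(α, β)` of rational functions in two variables -/
abbrev FF (k : Type) [Field k] : Type := FractionRing (MvPolynomial (Fin 2) k)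

/-- `α` -/
noncomputable abbrev al (k : Type) [Field k] : FF k :=
  algebraMap (MvPolynomial (Fin 2) k) (FF k) (MvPolynomial.X 0)

/-- `β` -/
noncomputable abbrev be (k : Type) [Field k] : FF k :=
  algebraMap (MvPolynomial (Fin 2) k) (FF k) (MvPolynomial.X 1)

/-- The generic symbol algebra `(α, β)_{p, k(α, β)}` of degree `p`: generators `x, y`, relations
`x^p = α`, `y^p = β`, `y x = ω x y`. -/
abbrev GenSym (k : Type) [Field k] (p : ℕ) (ω : k) : Type :=
  Symb (FF k) p (algebraMap k (FF k) ω) (al k) (be k)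

variable {k : Type} [Field k] {p : ℕ} {ω : k}

/-- the monomials of the generic symbol algebra -/
noncomputable abbrev gm (k : Type) [Field k] (p : ℕ) (ω : k) (st : ℕ × ℕ) : GenSym k p ω :=
  mon (FF k) p (algebraMap k (FF k) ω) (al k) (be k) st.1 st.2

/-- noncommutative polynomials in `x` and `y` with coefficients in `k` -/
noncomputable def Phi (k : Type) [Field k] (p : ℕ) (ω : k) :
    (ℕ × ℕ →₀ k) →+ GenSym k p ω :=
  Finsupp.liftAddHom fun st =>
    ((smulAddHom (FF k) (GenSym k p ω)).flip (gm k p ω st)).comp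
      (algebraMap k (FF k)).toAddMonoidHom

lemma Phi_single (st : ℕ × ℕ) (c : k) :
    Phi k p ω (Finsupp.single st c) = algebraMap k (FF k) c • gm k p ω st := by
  simp [Phi]

lemma Phi_apply (f : ℕ × ℕ →₀ k) :
    Phi k p ω f = f.sum fun st c => algebraMap k (FF k) c • gm k p ω st := by
  rfl

lemma algebraMap_k (c : k) : algebraMap k (FF k) c
    = algebraMap (MvPolynomial (Fin 2) k) (FF k) (MvPolynomial.C c) := by
  rw [IsScalarTower.algebraMap_apply k (MvPolynomial (Fin 2) k) (FF k)]
  rfl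

lemma algebraMap_monomial (n : Fin 2 →₀ ℕ) (c : k) :
    algebraMap (MvPolynomial (Fin 2) k) (FF k) (MvPolynomial.monomial n c)
      = algebraMap k (FF k) c * (al k ^ n 0 * be k ^ n 1) := by
  rw [MvPolynomial.monomial_eq, map_mul, algebraMap_k, Finsupp.prod_fintype _ _ (by simp)]
  simp

/-- the exponent vector `(s, t)` -/
noncomputable def ev (s t : ℕ) : Fin 2 →₀ ℕ := Finsupp.equivFunOnFinite.symm ![s, t]

lemma ev_inj {s t s' t' : ℕ} (h : ev s t = ev s' t') : s = s' ∧ t = t' := by
  have h0 := DFunLike.congr_fun h 0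
  have h1 := DFunLike.congr_fun h 1
  simp only [ev, Finsupp.equivFunOnFinite_symm_apply_apply, Matrix.cons_val_zero,
    Matrix.cons_val_one] at h0 h1
  exact ⟨h0, h1⟩

lemma Phi_injective (hp : 0 < p) (hω : ω ^ p = 1) (f : ℕ × ℕ →₀ k) (hf : Phi k p ω f = 0) :
    f = 0 := by
  have hω' : (algebraMap k (FF k) ω) ^ p = 1 := by rw [← map_pow, hω, map_one]
  obtain ⟨e, he⟩ := symb_basis p hp (algebraMap k (FF k) ω) (al k) (be k) hω'
  ext ⟨s₀, t₀⟩
  rw [Finsupp.zero_apply]
  set ij : Fin p × Fin p := (⟨s₀ % p, Nat.mod_lt _ hp⟩, ⟨t₀ % p, Nat.mod_lt _ hp⟩) with hij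
  -- the coordinate `ij` of `Phi f`
  have hcoord : ∀ s t : ℕ, e.repr (gm k p ω (s, t)) ij
      = if s % p = s₀ % p ∧ t % p = t₀ % p then al k ^ (s / p) * be k ^ (t / p) else 0 := by
    intro s t
    have h1 : gm k p ω (s, t) = (al k ^ (s / p) * be k ^ (t / p)) •
        e (⟨s % p, Nat.mod_lt _ hp⟩, ⟨t % p, Nat.mod_lt _ hp⟩) := by
      rw [he]
      exact mon_mod s t
    rw [h1, map_smul, Finsupp.smul_apply, Module.Basis.repr_self, Finsupp.single_apply, smul_eq_mul]
    by_cases h : s % p = s₀ % p ∧ t % p = t₀ % p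
    · rw [if_pos h, if_pos, mul_one]
      rw [hij]
      simp [h.1, h.2]
    · rw [if_neg h, if_neg, mul_zero]
      intro h'
      apply h
      rw [hij] at h'
      simpa using h'
  have h1 : e.repr (Phi k p ω f) ij = algebraMap (MvPolynomial (Fin 2) k) (FF k)
      (f.sum fun st c => if st.1 % p = s₀ % p ∧ st.2 % p = t₀ % p then
        MvPolynomial.monomial (ev (st.1 / p) (st.2 / p)) c else 0) := by
    rw [Phi_apply, Finsupp.sum, Finsupp.sum, map_sum, map_sum, Finsupp.finsetSum_apply]
    apply Finset.sum_congr rfl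
    rintro ⟨s, t⟩ -
    rw [map_smul, Finsupp.smul_apply, hcoord, smul_eq_mul]
    split_ifs with h
    · rw [algebraMap_monomial]
      simp [ev]
    · simp
  rw [hf, map_zero, Finsupp.zero_apply] at h1
  have h2 := (IsFractionRing.injective (MvPolynomial (Fin 2) k) (FF k))
    (h1.symm.trans (map_zero _).symm)
  have h3 := congrArg (MvPolynomial.coeff (ev (s₀ / p) (t₀ / p))) h2
  rw [MvPolynomial.coeff_zero, Finsupp.sum, MvPolynomial.coeff_sum,
    Finset.sum_eq_single (s₀, t₀)] at h3
  · simpa using h3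
  · rintro ⟨s, t⟩ - hne
    split_ifs with h
    · rw [MvPolynomial.coeff_monomial, if_neg]
      intro h'
      obtain ⟨h4, h5⟩ := ev_inj h'
      apply hne
      have h6 := Nat.div_add_mod s p
      have h7 := Nat.div_add_mod s₀ p
      have h8 := Nat.div_add_mod t p
      have h9 := Nat.div_add_mod t₀ p
      simp only at h h4 h5
      rw [h4, h.1] at h6
      rw [h5, h.2] at h8
      rw [← h6, ← h8, h7, h9]
    · simp
  · intro h
    simp [Finsupp.notMem_support_iff.1 h]

/-- twisted convolution -/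
noncomputable def conv (ω : k) (f g : ℕ × ℕ →₀ k) : ℕ × ℕ →₀ k :=
  ∑ a ∈ f.support, ∑ b ∈ g.support, Finsupp.single (a + b) (f a * g b * ω ^ (a.2 * b.1))

lemma Phi_mul (f g : ℕ × ℕ →₀ k) : Phi k p ω f * Phi k p ω g = Phi k p ω (conv ω f g) := by
  rw [conv, map_sum, Phi_apply, Phi_apply, Finsupp.sum, Finsupp.sum, Finset.sum_mul_sum]
  apply Finset.sum_congr rfl
  intro a _
  rw [map_sum]
  apply Finset.sum_congr rfl
  intro b _
  rw [Phi_single, smul_mul_smul_comm, mon_mul, smul_smul, map_mul, map_mul, map_pow]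
  rfl

lemma conv_ne_zero (hω : ω ≠ 0) {f g : ℕ × ℕ →₀ k} (hf : f ≠ 0) (hg : g ≠ 0) :
    conv ω f g ≠ 0 := by
  obtain ⟨a₀, ha₀, b₀, hb₀, huniq⟩ := UniqueSums.uniqueAdd_of_nonempty
    (Finsupp.support_nonempty_iff.2 hf) (Finsupp.support_nonempty_iff.2 hg)
  intro h
  have h1 := DFunLike.congr_fun h (a₀ + b₀)
  rw [conv, Finsupp.finsetSum_apply, Finset.sum_eq_single a₀, Finsupp.finsetSum_apply,
    Finset.sum_eq_single b₀, Finsupp.single_eq_same, Finsupp.zero_apply] at h1
  · have h2 : f a₀ ≠ 0 := Finsupp.mem_support_iff.1 ha₀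
    have h3 : g b₀ ≠ 0 := Finsupp.mem_support_iff.1 hb₀
    have h4 : ω ^ (a₀.2 * b₀.1) ≠ 0 := pow_ne_zero _ hω
    exact (mul_ne_zero (mul_ne_zero h2 h3) h4) h1
  · intro b hb hne
    rw [Finsupp.single_apply, if_neg]
    intro h'
    exact hne (huniq ha₀ hb h').2
  · intro h'
    exact absurd hb₀ h'
  · intro a ha hne
    rw [Finsupp.finsetSum_apply]
    apply Finset.sum_eq_zero
    intro b hb
    rw [Finsupp.single_apply, if_neg]
    intro h'
    exact hne (huniq ha hb h').1
  · intro h'
    exact absurd ha₀ h'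

lemma poly_smul_mem (P : MvPolynomial (Fin 2) k) (i j : ℕ) :
    algebraMap (MvPolynomial (Fin 2) k) (FF k) P • gm k p ω (i, j) ∈ (Phi k p ω).range := by
  induction P using MvPolynomial.induction_on' with
  | monomial n c =>
    refine ⟨Finsupp.single (i + p * n 0, j + p * n 1) c, ?_⟩
    rw [Phi_single, algebraMap_monomial, mul_smul]
    congr 1
    show mon _ _ _ _ _ _ _ = _ • mon _ _ _ _ _ _ _
    rw [mon_add_left, mon_add_right, smul_smul]
  | add P Q hP hQ =>
    rw [map_add, add_smul]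
    exact add_mem hP hQ

lemma exists_clear (hp : 0 < p) (hω : ω ^ p = 1) (u : GenSym k p ω) :
    ∃ d : MvPolynomial (Fin 2) k, d ≠ 0 ∧ ∃ f : ℕ × ℕ →₀ k,
      algebraMap (MvPolynomial (Fin 2) k) (FF k) d • u = Phi k p ω f := by
  have hω' : (algebraMap k (FF k) ω) ^ p = 1 := by rw [← map_pow, hω, map_one]
  obtain ⟨e, he⟩ := symb_basis p hp (algebraMap k (FF k) ω) (al k) (be k) hω'
  obtain ⟨d, hd⟩ := IsLocalization.exist_integer_multiples_of_finite
    (nonZeroDivisors (MvPolynomial (Fin 2) k)) (fun ij : Fin p × Fin p => e.repr u ij)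
  refine ⟨d, nonZeroDivisors.ne_zero d.2, ?_⟩
  have h1 : algebraMap (MvPolynomial (Fin 2) k) (FF k) d • u ∈ (Phi k p ω).range := by
    have h0 : algebraMap (MvPolynomial (Fin 2) k) (FF k) d • u
        = ∑ ij, algebraMap (MvPolynomial (Fin 2) k) (FF k) d • e.repr u ij • e ij := by
      conv_lhs => rw [← e.sum_repr u]
      rw [Finset.smul_sum]
    rw [h0]
    apply sum_mem
    intro ij _
    obtain ⟨P, hP⟩ := hd ij
    have h2 : algebraMap (MvPolynomial (Fin 2) k) (FF k) d • e.repr u ij • e ij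
        = algebraMap (MvPolynomial (Fin 2) k) (FF k) P • gm k p ω (ij.1, ij.2) := by
      rw [smul_smul, hP, Algebra.smul_def (d : MvPolynomial (Fin 2) k) (e.repr u ij), he]
      rfl
    rw [h2]
    exact poly_smul_mem P _ _
  obtain ⟨f, hf⟩ := h1
  exact ⟨f, hf.symm⟩

theorem noZeroDivisors (hp : 0 < p) (hω : IsPrimitiveRoot ω p) {u w : GenSym k p ω}
    (h : u * w = 0) : u = 0 ∨ w = 0 := by
  by_contra hcon
  push Not at hcon
  obtain ⟨hu, hw⟩ := hcon
  obtain ⟨d, hd, f, hf⟩ := exists_clear hp hω.pow_eq_one u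
  obtain ⟨d', hd', g, hg⟩ := exists_clear hp hω.pow_eq_one w
  have hinj := IsFractionRing.injective (MvPolynomial (Fin 2) k) (FF k)
  have hne : ∀ d : MvPolynomial (Fin 2) k, d ≠ 0 →
      algebraMap (MvPolynomial (Fin 2) k) (FF k) d ≠ 0 := by
    intro d hd h
    exact hd (hinj (h.trans (map_zero _).symm))
  have hf0 : f ≠ 0 := by
    rintro rfl
    rw [map_zero] at hf
    rcases smul_eq_zero.1 hf with h1 | h1
    · exact hne d hd h1
    · exact hu h1
  have hg0 : g ≠ 0 := by
    rintro rfl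
    rw [map_zero] at hg
    rcases smul_eq_zero.1 hg with h1 | h1
    · exact hne d' hd' h1
    · exact hw h1
  have hω0 : ω ≠ 0 := by
    rintro rfl
    have := hω.pow_eq_one
    rw [zero_pow hp.ne'] at this
    exact zero_ne_one this
  apply conv_ne_zero hω0 hf0 hg0
  apply Phi_injective hp hω.pow_eq_one
  rw [← Phi_mul, ← hf, ← hg, smul_mul_smul_comm, h, smul_zero]

lemma nontrivial (hp : 0 < p) (hω : IsPrimitiveRoot ω p) : Nontrivial (GenSym k p ω) := by
  have hω' : (algebraMap k (FF k) ω) ^ p = 1 := by rw [← map_pow, hω.pow_eq_one, map_one]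
  obtain ⟨e, -⟩ := symb_basis p hp (algebraMap k (FF k) ω) (al k) (be k) hω'
  exact ⟨e (⟨0, hp⟩, ⟨0, hp⟩), 0, e.ne_zero _⟩

lemma finrank_eq (hp : 0 < p) (hω : IsPrimitiveRoot ω p) :
    Module.finrank (FF k) (GenSym k p ω) = p ^ 2 := by
  have hω' : (algebraMap k (FF k) ω) ^ p = 1 := by rw [← map_pow, hω.pow_eq_one, map_one]
  obtain ⟨e, -⟩ := symb_basis p hp (algebraMap k (FF k) ω) (al k) (be k) hω'
  rw [Module.finrank_eq_card_basis e]
  simp [sq]

theorem isUnit (hp : 0 < p) (hω : IsPrimitiveRoot ω p) {u : GenSym k p ω} (hu : u ≠ 0) :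
    IsUnit u := by
  have hω' : (algebraMap k (FF k) ω) ^ p = 1 := by rw [← map_pow, hω.pow_eq_one, map_one]
  obtain ⟨e, -⟩ := symb_basis p hp (algebraMap k (FF k) ω) (al k) (be k) hω'
  have : Module.Finite (FF k) (GenSym k p ω) := Module.Finite.of_basis e
  have : Nontrivial (GenSym k p ω) := nontrivial hp hω
  have : NoZeroDivisors (GenSym k p ω) := ⟨fun h => noZeroDivisors hp hω h⟩
  have : IsDomain (GenSym k p ω) := NoZeroDivisors.to_isDomain _
  exact FiniteDimensional.isUnit (FF k) hu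

theorem isCentral (hp : 0 < p) (hω : IsPrimitiveRoot ω p) :
    Algebra.IsCentral (FF k) (GenSym k p ω) := by
  have hωF : IsPrimitiveRoot (algebraMap k (FF k) ω) p :=
    hω.map_of_injective (algebraMap k (FF k)).injective
  obtain ⟨e, he⟩ := symb_basis p hp (algebraMap k (FF k) ω) (al k) (be k) hωF.pow_eq_one
  have he' : ∀ ij : Fin p × Fin p, e ij = gm k p ω (ij.1, ij.2) := he
  have hnt : Nontrivial (GenSym k p ω) := nontrivial hp hω
  refine ⟨fun u hu => ?_⟩
  rw [Subalgebra.mem_center_iff] at hu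
  have hsum := e.sum_repr u
  have hgm0 : ∀ st, gm k p ω st ≠ 0 := by
    rintro ⟨s, t⟩ h
    have := Phi_injective (k := k) (ω := ω) hp hω.pow_eq_one (Finsupp.single (s, t) 1)
      (by rw [Phi_single, h, smul_zero])
    simp at this
  -- commutation with y
  have hy : ∀ ij : Fin p × Fin p, (ij.1 : ℕ) ≠ 0 → e.repr u ij = 0 := by
    have h1 := hu (gm k p ω (0, 1))
    have h2 : (∑ ij, (e.repr u ij * ((algebraMap k (FF k) ω) ^ (ij.1 : ℕ) - 1)) • e ij)
        * gm k p ω (0, 1) = 0 := by
      have h3 : gm k p ω (0, 1) * u = ∑ ij, (e.repr u ij *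
          (algebraMap k (FF k) ω) ^ (ij.1 : ℕ)) • gm k p ω (ij.1, ij.2 + 1) := by
        conv_lhs => rw [← hsum]
        rw [Finset.mul_sum]
        apply Finset.sum_congr rfl
        intro ij _
        rw [he', mul_smul_comm, mon_mul, smul_smul, one_mul, zero_add, add_comm 1]
      have h4 : u * gm k p ω (0, 1) = ∑ ij, e.repr u ij • gm k p ω (ij.1, ij.2 + 1) := by
        conv_lhs => rw [← hsum]
        rw [Finset.sum_mul]
        apply Finset.sum_congr rfl
        intro ij _
        rw [he', smul_mul_assoc, mon_mul, mul_zero, pow_zero, one_smul, add_zero]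
      rw [h3, h4] at h1
      rw [Finset.sum_mul, ← sub_eq_zero.2 h1, ← Finset.sum_sub_distrib]
      apply Finset.sum_congr rfl
      intro ij _
      rw [he', smul_mul_assoc, mon_mul, mul_zero, pow_zero, one_smul, add_zero, ← sub_smul]
      congr 1
      ring
    have h5 : ∑ ij, (e.repr u ij * ((algebraMap k (FF k) ω) ^ (ij.1 : ℕ) - 1)) • e ij = 0 :=
      (noZeroDivisors hp hω h2).resolve_right (hgm0 _)
    have h6 := Fintype.linearIndependent_iff.1 e.linearIndependent _ h5
    intro ij hij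
    rcases mul_eq_zero.1 (h6 ij) with h7 | h7
    · exact h7
    · exfalso
      have := (hωF.pow_eq_one_iff_dvd (ij.1 : ℕ)).1 (sub_eq_zero.1 h7)
      have := Nat.le_of_dvd (by omega) this
      have := ij.1.2
      omega
  -- commutation with x
  have hx : ∀ ij : Fin p × Fin p, (ij.2 : ℕ) ≠ 0 → e.repr u ij = 0 := by
    have h1 := hu (gm k p ω (1, 0))
    have h2 : gm k p ω (1, 0) *
        (∑ ij, (e.repr u ij * ((algebraMap k (FF k) ω) ^ (ij.2 : ℕ) - 1)) • e ij) = 0 := by
      have h3 : gm k p ω (1, 0) * u = ∑ ij, e.repr u ij • gm k p ω (1 + ij.1, ij.2) := by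
        conv_lhs => rw [← hsum]
        rw [Finset.mul_sum]
        apply Finset.sum_congr rfl
        intro ij _
        rw [he', mul_smul_comm, mon_mul, zero_mul, pow_zero, one_smul, zero_add]
      have h4 : u * gm k p ω (1, 0) = ∑ ij, (e.repr u ij *
          (algebraMap k (FF k) ω) ^ (ij.2 : ℕ)) • gm k p ω (1 + ij.1, ij.2) := by
        conv_lhs => rw [← hsum]
        rw [Finset.sum_mul]
        apply Finset.sum_congr rfl
        intro ij _
        rw [he', smul_mul_assoc, mon_mul, mul_one, smul_smul, add_zero, add_comm 1]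
      rw [h3, h4] at h1
      rw [Finset.mul_sum, ← sub_eq_zero.2 h1.symm, ← Finset.sum_sub_distrib]
      apply Finset.sum_congr rfl
      intro ij _
      rw [he', mul_smul_comm, mon_mul, zero_mul, pow_zero, one_smul, zero_add, ← sub_smul]
      congr 1
      ring
    have h5 : ∑ ij, (e.repr u ij * ((algebraMap k (FF k) ω) ^ (ij.2 : ℕ) - 1)) • e ij = 0 :=
      (noZeroDivisors hp hω h2).resolve_left (hgm0 _)
    have h6 := Fintype.linearIndependent_iff.1 e.linearIndependent _ h5
    intro ij hij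
    rcases mul_eq_zero.1 (h6 ij) with h7 | h7
    · exact h7
    · exfalso
      have := (hωF.pow_eq_one_iff_dvd (ij.2 : ℕ)).1 (sub_eq_zero.1 h7)
      have := Nat.le_of_dvd (by omega) this
      have := ij.2.2
      omega
  rw [Algebra.mem_bot]
  have h1 : ∑ ij, e.repr u ij • e ij
      = e.repr u (⟨0, hp⟩, ⟨0, hp⟩) • e (⟨0, hp⟩, ⟨0, hp⟩) := by
    refine Finset.sum_eq_single (f := fun ij => e.repr u ij • e ij)
      ((⟨0, hp⟩, ⟨0, hp⟩) : Fin p × Fin p) ?_ ?_
    · rintro ⟨i, j⟩ - hne
      by_cases hi : (i : ℕ) = 0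
      · have hj : (j : ℕ) ≠ 0 := by
          intro hj
          apply hne
          ext
          · exact hi
          · exact hj
        simp only [hx (i, j) hj, zero_smul]
      · simp only [hy (i, j) hi, zero_smul]
    · intro h
      exact absurd (Finset.mem_univ _) h
  have h2 : e (⟨0, hp⟩, ⟨0, hp⟩) = 1 := by
    rw [he]
    simp
  rw [hsum, h2] at h1
  exact ⟨e.repr u (⟨0, hp⟩, ⟨0, hp⟩), (Algebra.algebraMap_eq_smul_one _).trans h1.symm⟩

end Generic

/-! ### The result -/

/-- `V` is `r`-trace-vanishing (`A` central simple of degree `n` over `F`). -/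
def IsTraceVanishing (F A : Type) [Field F] [Ring A] [Algebra F A] (n r : ℕ)
    (V : Submodule F A) : Prop :=
  ∀ v ∈ V, redTrace F A n (v ^ r) = 0

/-- `A` is a central division algebra of degree `n` over `F`. -/
def IsCentralDivision (F A : Type) [Field F] [Ring A] [Algebra F A] (n : ℕ) : Prop :=
  Algebra.IsCentral F A ∧ (∀ u : A, u ≠ 0 → IsUnit u) ∧ Module.finrank F A = n ^ 2

/-- The bound `dim V ≤ ⌊(n² - 1) / r⌋` fails for some `r`-trace-vanishing subspace `V` of the
central simple algebra `A` of degree `n`. -/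
def BoundFails (F A : Type) [Field F] [Ring A] [Algebra F A] (n r : ℕ) : Prop :=
  ∃ V : Submodule F A, IsTraceVanishing F A n r V ∧ (n ^ 2 - 1) / r < Module.finrank F V

theorem counterexample {p r : ℕ} (hp : p.Prime) (hr2 : 2 ≤ r) (hrp : r ≤ p - 1)
    (hd : ¬ r ∣ p - 1) (k : Type) [Field k] {ω : k} (hω : IsPrimitiveRoot ω p) :
    BoundFails (FF k) (GenSym k p ω) p r := by
  have hp2 := hp.two_le
  have hωF : IsPrimitiveRoot (algebraMap k (FF k) ω) p :=
    hω.map_of_injective (algebraMap k (FF k)).injective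
  have hb : be k ≠ 0 := by
    intro h
    have := (IsFractionRing.injective (MvPolynomial (Fin 2) k) (FF k))
      (h.trans (map_zero _).symm)
    exact MvPolynomial.X_ne_zero 1 this
  obtain ⟨t, ht⟩ := exists_large hp hr2 (by omega) hd
  refine ⟨U (FF k) p (algebraMap k (FF k) ω) (al k) (be k) r t 1, ?_, ?_⟩
  · intro v hv
    have h := trace_U hp.pos hωF hb (by omega : 0 < r) hv
    rw [regTr_apply] at h
    rw [redTrace, h, mul_zero]
  · have h := finrank_U (F := FF k) (a := al k) (b := be k) (r := r) (t := t) hp.pos hωF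
    refine lt_of_lt_of_le ?_ h
    rw [Nat.div_lt_iff_lt_mul (by omega)]
    have h1 : (p + 1) * p ≤ r * (expo p r t).card * p := Nat.mul_le_mul_right _ ht
    have h2 : (expo p r t).card * p * r = r * (expo p r t).card * p := by ring
    have h3 : p ^ 2 - 1 < (p + 1) * p := by
      have : p ^ 2 = p * p := sq p
      have : (p + 1) * p = p * p + p := by ring
      omega
    omega

/-- `A` is the symbol algebra `(a, b)_{p, F}`: it is generated by `x, y` with `x^p = a`, `y^p = b`,
`y x = ω x y`, and has dimension `p²` over `F` (these properties determine it up to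
isomorphism). -/
def IsSymbolAlgebra (F A : Type) [Field F] [Ring A] [Algebra F A] (p : ℕ) (ω a b : F) : Prop :=
  ∃ x y : A, x ^ p = algebraMap F A a ∧ y ^ p = algebraMap F A b ∧ y * x = ω • (x * y) ∧
    Algebra.adjoin F {x, y} = ⊤ ∧ Module.finrank F A = p ^ 2

theorem isSymbolAlgebra {p : ℕ} (hp : 0 < p) (k : Type) [Field k] {ω : k}
    (hω : IsPrimitiveRoot ω p) :
    IsSymbolAlgebra (FF k) (GenSym k p ω) p (algebraMap k (FF k) ω) (al k) (be k) := by
  refine ⟨gx _ _ _ _ _, gy _ _ _ _ _, gx_pow, gy_pow, y_x, ?_, finrank_eq hp hω⟩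
  have hω' : (algebraMap k (FF k) ω) ^ p = 1 := by rw [← map_pow, hω.pow_eq_one, map_one]
  obtain ⟨e, he⟩ := symb_basis p hp (algebraMap k (FF k) ω) (al k) (be k) hω'
  rw [eq_top_iff]
  intro u _
  rw [← e.sum_repr u]
  refine Subalgebra.sum_mem _ (fun ij _ => Subalgebra.smul_mem _ ?_ _)
  rw [he]
  exact Subalgebra.mul_mem _ (Subalgebra.pow_mem _ (Algebra.subset_adjoin (by simp)) _)
    (Subalgebra.pow_mem _ (Algebra.subset_adjoin (by simp)) _)

/-- The generic symbol algebra `A` of degree `p` over `F = k(α, β)` is a central division algebra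
of degree `p`, and the bound `dim V ≤ ⌊(p² - 1) / r⌋` fails for some `r`-trace-vanishing subspace
`V` of `A`. -/
def GenericBoundFails (k : Type) [Field k] (p r : ℕ) (ω : k) : Prop :=
  ∃ (A : Type) (_ : Ring A) (_ : Algebra (FF k) A),
    IsSymbolAlgebra (FF k) A p (algebraMap k (FF k) ω) (al k) (be k) ∧
    IsCentralDivision (FF k) A p ∧ BoundFails (FF k) A p r

theorem generic {p r : ℕ} (hp : p.Prime) (hr2 : 2 ≤ r) (hrp : r ≤ p - 1)
    (hd : ¬ r ∣ p - 1) (k : Type) [Field k] {ω : k} (hω : IsPrimitiveRoot ω p) :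
    GenericBoundFails k p r ω :=
  ⟨GenSym k p ω, inferInstance, inferInstance, isSymbolAlgebra hp.pos k hω,
    ⟨isCentral hp.pos hω, fun _ hu => isUnit hp.pos hω hu, finrank_eq hp.pos hω⟩,
    counterexample hp hr2 hrp hd k hω⟩

/-- **Negative answers to Q1 and Q2.**  Let `p` be an odd prime, `2 ≤ r ≤ p - 1`, and suppose that
`r` does not divide `p - 1`.  Let `k` be any field with a primitive `p`-th root of unity `ω`, and
let `A` be the generic symbol algebra of degree `p` over `F = k(α, β)` (the case `m = 1` of the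
generic tensor product).  Then `A` is a central division algebra of dimension `p²` over `F`, and it
has an `r`-trace-vanishing subspace of dimension greater than `⌊(p² - 1) / r⌋`.  In particular this
happens for `p = 5`, `r = 3`, `k = ℂ`. -/
theorem result :
    (∀ p r : ℕ, p.Prime → 2 < p → 2 ≤ r → r ≤ p - 1 → ¬ r ∣ p - 1 →
      ∀ (k : Type) [Field k] (ω : k), IsPrimitiveRoot ω p → GenericBoundFails k p r ω) ∧
    (∃ ω : ℂ, IsPrimitiveRoot ω 5 ∧ GenericBoundFails ℂ 5 3 ω) := by
  refine ⟨fun p r hp _ hr2 hrp hd k _ ω hω => generic hp hr2 hrp hd k hω, ?_⟩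
  have hω := Complex.isPrimitiveRoot_exp 5 (by norm_num)
  exact ⟨_, hω, generic (by norm_num) (by norm_num) (by norm_num) (by norm_num) ℂ hω⟩

end Pool.Agent.Results.MP_064e41_al.TraceVanishing
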